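import Pool.Agent.H.MP_d2819f_an.A

set_option autoImplicit false
open Set Metric

namespace Pool.Agent.Results.MP_d2819f_an.No

theorem result : ∃ f : ℂ → ℂ, DifferentiableOn ℂ f (ball 0 1) ∧ InjOn f (ball 0 1) ∧ f 0 = 0 ∧
    deriv f 0 = 1 ∧ (∀ c : ℝ, IsPreconnected (f '' ball 0 1 ∩ {w | w.re = c})) ∧
    (∀ w ∈ f '' ball 0 1, w.im ≠ 0 →
      0 ∈ frontier (connectedComponentIn (f '' ball 0 1 \ {w | w.im = 0}) w)) ∧
    ∃ r ∈ Ioo (0 : ℝ) 1, ∃ c : ℝ, ¬ IsPreconnected (f '' ball 0 r ∩ {w | w.re = c}) := by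
  open Pool.Agent.H.MP_d2819f_an in
  refine ⟨f, f_diff, f_inj, by simp [f, g, ph], f_deriv, ?_, ?_, _, by norm_num, _, ncia⟩
  · rw [img]; exact cia
  · rw [img]; exact slit

end Pool.Agent.Results.MP_d2819f_an.No
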